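import Pool.Agent.H715.TW.Stm

/-!
# Project TW: the quadratic character of `ℚ(√2)` (`S_CH2N`, `S_CH2`)
-/

set_option autoImplicit false

namespace Pool.Agent.H155.TW

open Pool.Agent.H715.TW

/-- the sum over the primes -/
noncomputable def Ph (n : ℕ) : ZMod 2 :=
  ∑ᶠ s : {s : ℕ // s.Prime}, wt2 s * ((padicValNat s n : ℕ) : ZMod 2)

theorem finsupp_aux (n : ℕ) (hn : n ≠ 0) :
    (Function.support fun s : {s : ℕ // s.Prime} =>
      wt2 s * ((padicValNat s n : ℕ) : ZMod 2)).Finite := by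
  have h1 : {s : {s : ℕ // s.Prime} | (s : ℕ) ∈ n.divisors}.Finite := by
    apply Set.Finite.preimage (Subtype.val_injective.injOn)
    exact n.divisors.finite_toSet
  refine h1.subset fun s hs => ?_
  rw [Function.mem_support] at hs
  show (s : ℕ) ∈ n.divisors
  rw [Nat.mem_divisors]
  refine ⟨?_, hn⟩
  by_contra h
  apply hs
  rw [padicValNat.eq_zero_of_not_dvd h, Nat.cast_zero, mul_zero]

theorem Ph_mul {a b : ℕ} (ha : a ≠ 0) (hb : b ≠ 0) : Ph (a * b) = Ph a + Ph b := by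
  unfold Ph
  rw [← finsum_add_distrib (finsupp_aux a ha) (finsupp_aux b hb)]
  refine finsum_congr fun s => ?_
  have : Fact (s : ℕ).Prime := ⟨s.2⟩
  rw [padicValNat.mul ha hb, Nat.cast_add, mul_add]

theorem Ph_prime {p : ℕ} (hp : p.Prime) : Ph p = wt2 p := by
  unfold Ph
  rw [finsum_eq_single _ (⟨p, hp⟩ : {s : ℕ // s.Prime})]
  · have : Fact p.Prime := ⟨hp⟩
    show wt2 p * ((padicValNat p p : ℕ) : ZMod 2) = wt2 p
    rw [padicValNat_self, Nat.cast_one, mul_one]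
  · intro s hs
    have h1 : ¬ (s : ℕ) ∣ p := by
      intro h
      apply hs
      apply Subtype.ext
      exact (Nat.prime_dvd_prime_iff_eq s.2 hp).1 h
    rw [padicValNat.eq_zero_of_not_dvd h1, Nat.cast_zero, mul_zero]

theorem wt2_mul {a b : ℕ} (ha : ¬ 2 ∣ a) (hb : ¬ 2 ∣ b) : wt2 (a * b) = wt2 a + wt2 b := by
  unfold wt2
  rw [Nat.mul_mod]
  have h1 : a % 8 = 1 ∨ a % 8 = 3 ∨ a % 8 = 5 ∨ a % 8 = 7 := by omega
  have h2 : b % 8 = 1 ∨ b % 8 = 3 ∨ b % 8 = 5 ∨ b % 8 = 7 := by omega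
  rcases h1 with h1 | h1 | h1 | h1 <;> rcases h2 with h2 | h2 | h2 | h2 <;>
    rw [h1, h2] <;> decide

theorem ch2n : S_CH2N := by
  intro n hn
  show Ph n = wt2 n
  induction n using induction_on_primes with
  | zero => exact absurd (dvd_zero 2) hn
  | one =>
    unfold Ph
    have h1 : ∀ s : {s : ℕ // s.Prime}, wt2 s * ((padicValNat s 1 : ℕ) : ZMod 2) = 0 := by
      intro s
      rw [padicValNat_one_right, Nat.cast_zero, mul_zero]
    rw [finsum_congr h1, finsum_zero]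
    decide
  | prime_mul p a hp ih =>
    have h1 : ¬ 2 ∣ p := fun h => hn (h.mul_right a)
    have h2 : ¬ 2 ∣ a := fun h => hn (h.mul_left p)
    have h3 : a ≠ 0 := by
      rintro rfl
      exact h2 (dvd_zero 2)
    rw [Ph_mul hp.ne_zero h3, Ph_prime hp, ih h2, wt2_mul h1 h2]

theorem odd_part {A : ℤ} (hA : A ≠ 0) : ∃ (α : ℕ) (A' : ℤ), A = 2 ^ α * A' ∧ ¬ (2 : ℤ) ∣ A' := by
  obtain ⟨k, m, hm, h⟩ := Nat.exists_eq_two_pow_mul_odd (Int.natAbs_ne_zero.2 hA)
  have hm2 : ¬ (2 : ℤ) ∣ (m : ℤ) := by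
    obtain ⟨j, rfl⟩ := hm
    omega
  rcases Int.natAbs_eq A with h1 | h1
  · refine ⟨k, m, ?_, hm2⟩
    rw [h1, h]
    push_cast
    ring
  · refine ⟨k, -m, ?_, ?_⟩
    · rw [h1, h]
      push_cast
      ring
    · rwa [dvd_neg]

theorem sq_odd {A : ℤ} (hA : ¬ (2 : ℤ) ∣ A) : ∃ j : ℤ, A ^ 2 = 8 * j + 1 := by
  obtain ⟨k, hk⟩ : ∃ k, A = 2 * k + 1 := ⟨A / 2, by omega⟩
  obtain ⟨j, hj⟩ := Int.even_mul_succ_self k
  refine ⟨j, ?_⟩
  rw [hk]
  linear_combination 4 * hj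

theorem val_two {A' : ℤ} {α : ℕ} (hA : ¬ (2 : ℤ) ∣ A') :
    padicValRat 2 (((2 ^ α * A' : ℤ) : ℚ)) = α := by
  have h0 : A' ≠ 0 := by
    rintro rfl
    exact hA (dvd_zero 2)
  push_cast
  rw [padicValRat.mul (pow_ne_zero _ (by norm_num)) (by exact_mod_cast h0), padicValRat.pow]
  have h1 : padicValRat 2 (2 : ℚ) = 1 := by
    have := padicValRat.self (p := 2) (by norm_num)
    exact_mod_cast this
  have h2 : padicValRat 2 (A' : ℚ) = 0 := by
    rw [padicValRat.of_int, padicValInt.eq_zero_of_not_dvd (by exact_mod_cast hA)]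
    rfl
  rw [h1, h2]
  simp

theorem ch2 (h : S_CH2N) : S_CH2 := by
  intro ξ η hξ hη hlt
  set D : ℤ := (ξ.den : ℤ) * η.den with hD
  have hD0 : (D : ℚ) ≠ 0 := by
    rw [hD]
    have h1 : ξ.den ≠ 0 := ξ.den_ne_zero
    have h2 : η.den ≠ 0 := η.den_ne_zero
    push_cast
    exact mul_ne_zero (by exact_mod_cast h1) (by exact_mod_cast h2)
  have hdx : (ξ.den : ℚ) ≠ 0 := by exact_mod_cast ξ.den_ne_zero
  have hdy : (η.den : ℚ) ≠ 0 := by exact_mod_cast η.den_ne_zero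
  have hA : ξ = ((ξ.num * η.den : ℤ) : ℚ) / D := by
    rw [hD]
    push_cast
    rw [mul_div_mul_right _ _ hdy]
    exact (Rat.num_div_den ξ).symm
  have hB : η = ((η.num * ξ.den : ℤ) : ℚ) / D := by
    rw [hD]
    push_cast
    rw [mul_comm (ξ.den : ℚ), mul_div_mul_right _ _ hdx]
    exact (Rat.num_div_den η).symm
  have hAn : ξ.num * η.den ≠ 0 := mul_ne_zero (Rat.num_ne_zero.2 hξ) (by
    exact_mod_cast η.den_ne_zero)
  have hBn : η.num * ξ.den ≠ 0 := mul_ne_zero (Rat.num_ne_zero.2 hη) (by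
    exact_mod_cast ξ.den_ne_zero)
  obtain ⟨α, A', hA', hA2⟩ := odd_part hAn
  obtain ⟨β, B', hB', hB2⟩ := odd_part hBn
  rw [hA'] at hA
  rw [hB'] at hB
  have hvξ : padicValRat 2 ξ = α - padicValRat 2 D := by
    rw [hA, padicValRat.div (by
      intro h0
      rw [h0, zero_div] at hA
      exact hξ hA) hD0, val_two hA2]
  have hvη : padicValRat 2 η = β - padicValRat 2 D := by
    rw [hB, padicValRat.div (by
      intro h0
      rw [h0, zero_div] at hB
      exact hη hB) hD0, val_two hB2]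
  have hαβ : α < β := by
    rw [hvξ, hvη] at hlt
    omega
  have hcond : padicValRat 2 η = padicValRat 2 ξ + 1 ↔ β = α + 1 := by
    rw [hvξ, hvη]
    omega
  obtain ⟨e, rfl⟩ := Nat.exists_eq_add_of_lt hαβ
  set N : ℤ := A' ^ 2 - 4 ^ (e + 1) * B' ^ 2 with hN
  obtain ⟨j, hj⟩ := sq_odd hA2
  obtain ⟨j', hj'⟩ := sq_odd hB2
  have hNmod : N % 8 = if e = 0 then 5 else 1 := by
    rw [hN, hj, hj']
    rcases e with _ | e
    · simp only [if_true, Nat.zero_add, pow_one]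
      omega
    · rw [if_neg (Nat.succ_ne_zero e)]
      have h4 : (4 : ℤ) ^ (e + 1 + 1) * (8 * j' + 1) = 8 * (2 * 4 ^ e * (8 * j' + 1)) := by ring
      rw [h4]
      omega
  have hN0 : N ≠ 0 := by
    intro h0
    rw [h0] at hNmod
    split_ifs at hNmod <;> omega
  have hN2 : ¬ 2 ∣ N.natAbs := by
    split_ifs at hNmod <;> omega
  have heq : ξ ^ 2 - η ^ 2 = (2 ^ α / D) ^ 2 * (N : ℚ) := by
    rw [hA, hB, hN]
    push_cast
    have h4 : (4 : ℚ) ^ (e + 1) = (2 ^ (e + 1)) ^ 2 := by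
      rw [← pow_mul, mul_comm, pow_mul]
      norm_num
    rw [h4]
    field_simp
    ring
  have hsum : ∑ᶠ s : {s : ℕ // s.Prime}, wt2 s * ((padicValRat s (ξ ^ 2 - η ^ 2) : ℤ) : ZMod 2) =
      ∑ᶠ s : {s : ℕ // s.Prime}, wt2 s * ((padicValNat s N.natAbs : ℕ) : ZMod 2) := by
    refine finsum_congr fun s => ?_
    have : Fact (s : ℕ).Prime := ⟨s.2⟩
    have hq : ((2 : ℚ) ^ α / D) ≠ 0 := div_ne_zero (pow_ne_zero _ (by norm_num)) hD0
    rw [heq, padicValRat.mul (pow_ne_zero _ hq) (by exact_mod_cast hN0), padicValRat.pow,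
      padicValRat.of_int]
    congr 1
    have h2 : (2 : ZMod 2) = 0 := by decide
    unfold padicValInt
    push_cast
    rw [h2, zero_mul, zero_add, padicValRat.of_nat, Int.cast_natCast]
  rw [hsum, h N.natAbs hN2]
  unfold wt2
  by_cases he : e = 0
  · rw [if_pos (by
      rw [if_pos he] at hNmod
      omega), if_pos (hcond.2 (by omega))]
  · rw [if_neg (by
      rw [if_neg he] at hNmod
      omega), if_neg (fun h1 => he (by
      have := hcond.1 h1
      omega))]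

end Pool.Agent.H155.TW
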